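import Pool.Agent.W544.K3.Defs

/-! # Project DRB, job INNER: bounded groups of matrices preserve an inner product -/

set_option autoImplicit false

open MeasureTheory Matrix

namespace Pool.Agent.V5helper79.DRB

open Pool.Agent.W544.K3

section
variable {m : ℕ}

/-- bounded pairs -/
def bd (m : ℕ) (C : ℝ) : Set (Matrix (Fin m) (Fin m) ℝ × (Matrix (Fin m) (Fin m) ℝ)ᵐᵒᵖ) :=
  {a | ∀ i j, |a.1 i j| ≤ C} ∩ {a | ∀ i j, |a.2.unop i j| ≤ C}

theorem bdM_compact (m : ℕ) (C : ℝ) :
    IsCompact {a : Matrix (Fin m) (Fin m) ℝ | ∀ i j, |a i j| ≤ C} := by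
  have h : {a : Matrix (Fin m) (Fin m) ℝ | ∀ i j, |a i j| ≤ C} =
      Set.pi Set.univ (fun _ => Set.pi Set.univ (fun _ => Set.Icc (-C) C)) := by
    ext a
    constructor
    · intro h i _ j _
      exact abs_le.1 (h i j)
    · intro h i j
      exact abs_le.2 (h i trivial j trivial)
  rw [h]
  exact isCompact_univ_pi fun _ => isCompact_univ_pi fun _ => isCompact_Icc

theorem bd_compact (m : ℕ) (C : ℝ) : IsCompact (bd m C) := by
  have h : bd m C = {a : Matrix (Fin m) (Fin m) ℝ | ∀ i j, |a i j| ≤ C} ×ˢ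
      (MulOpposite.opHomeomorph '' {a : Matrix (Fin m) (Fin m) ℝ | ∀ i j, |a i j| ≤ C}) := by
    ext a
    constructor
    · rintro ⟨h1, h2⟩
      exact ⟨h1, a.2.unop, h2, rfl⟩
    · rintro ⟨h1, b, h2, h3⟩
      refine ⟨h1, ?_⟩
      rw [Set.mem_ofPred_eq, ← h3]
      exact h2
  rw [h]
  exact (bdM_compact m C).prod ((bdM_compact m C).image MulOpposite.opHomeomorph.continuous)

theorem clos_compact (G : Subgroup (GL (Fin m) ℝ)) (C : ℝ)
    (hG : ∀ g ∈ G, ∀ i j, |(g : Matrix (Fin m) (Fin m) ℝ) i j| ≤ C) :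
    IsCompact (G.topologicalClosure : Set (GL (Fin m) ℝ)) := by
  have h1 : IsCompact ((Units.embedProduct (Matrix (Fin m) (Fin m) ℝ)) ⁻¹' (bd m C)) :=
    Units.isClosedEmbedding_embedProduct.isCompact_preimage (bd_compact m C)
  refine h1.of_isClosed_subset G.isClosed_topologicalClosure ?_
  rw [Subgroup.topologicalClosure_coe]
  apply closure_minimal _ h1.isClosed
  intro g hg
  refine ⟨fun i j => hG g hg i j, fun i j => ?_⟩
  exact hG g⁻¹ (G.inv_mem hg) i j

end

theorem t_INNER : S_inner := by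
  classical
  intro m G C hG
  let K : Subgroup (GL (Fin m) ℝ) := G.topologicalClosure
  have : CompactSpace K := isCompact_iff_compactSpace.1 (clos_compact G C hG)
  let _ : MeasurableSpace K := borel K
  have : BorelSpace K := ⟨rfl⟩
  let μ : Measure K := Measure.haar
  let F : K → Matrix (Fin m) (Fin m) ℝ := fun g =>
    ((g⁻¹ : K) : GL (Fin m) ℝ).val.transpose * ((g⁻¹ : K) : GL (Fin m) ℝ).val
  have hF : ∀ (g : K) (i j : Fin m), F g i j = ∑ k, ((g⁻¹ : K) : GL (Fin m) ℝ).val k i *
      ((g⁻¹ : K) : GL (Fin m) ℝ).val k j := fun g i j => rfl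
  have hFc : ∀ i j, Continuous fun g => F g i j := by
    intro i j
    have h1 : Continuous fun g : K => ((g⁻¹ : K) : GL (Fin m) ℝ).val :=
      Units.continuous_val.comp (continuous_subtype_val.comp continuous_inv)
    have h2 : Continuous F := (h1.matrix_transpose).matrix_mul h1
    exact h2.matrix_elem i j
  have hFi : ∀ i j, Integrable (fun g => F g i j) μ := fun i j =>
    (hFc i j).integrable_of_hasCompactSupport (HasCompactSupport.of_compactSpace _)
  let P : Matrix (Fin m) (Fin m) ℝ := Matrix.of fun i j => ∫ g, F g i j ∂μ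
  have hP : ∀ i j, P i j = ∫ g, F g i j ∂μ := fun i j => rfl
  have hlin : ∀ c : Fin m → Fin m → ℝ,
      ∑ i, ∑ j, c i j * P i j = ∫ g, ∑ i, ∑ j, c i j * F g i j ∂μ := by
    intro c
    rw [integral_finsetSum _ fun i _ => integrable_finsetSum _ fun j _ => (hFi i j).const_mul _]
    refine Finset.sum_congr rfl fun i _ => ?_
    rw [integral_finsetSum _ fun j _ => (hFi i j).const_mul _]
    refine Finset.sum_congr rfl fun j _ => ?_
    rw [hP, integral_const_mul]
  refine ⟨P, ⟨?_, ?_⟩, ?_⟩
  · ext i j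
    rw [Matrix.conjTranspose_apply, star_trivial, hP, hP]
    congr 1
    ext g
    show (F g) j i = F g i j
    rw [hF, hF]
    exact Finset.sum_congr rfl fun k _ => mul_comm _ _
  · intro x hx
    have e1 : (x.sum fun i xi => x.sum fun j xj => star xi * P i j * xj) =
        ∑ i, ∑ j, (x i * x j) * P i j := by
      rw [Finsupp.sum_fintype _ _ (fun i => by simp)]
      refine Finset.sum_congr rfl fun i _ => ?_
      rw [Finsupp.sum_fintype _ _ (fun i => by simp)]
      refine Finset.sum_congr rfl fun j _ => ?_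
      rw [star_trivial]
      ring
    rw [e1, hlin fun i j => x i * x j]
    have e2 : ∀ g : K, ∑ i, ∑ j, x i * x j * F g i j =
        ∑ k, (∑ i, ((g⁻¹ : K) : GL (Fin m) ℝ).val k i * x i) ^ 2 := by
      intro g
      have e3 : ∀ k, (∑ i, ((g⁻¹ : K) : GL (Fin m) ℝ).val k i * x i) ^ 2 =
          ∑ i, ∑ j, (((g⁻¹ : K) : GL (Fin m) ℝ).val k i * x i) *
            (((g⁻¹ : K) : GL (Fin m) ℝ).val k j * x j) := fun k => by
        rw [sq, Finset.sum_mul_sum]
      have e4 : ∀ A : Fin m → Fin m → Fin m → ℝ,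
          ∑ k, ∑ i, ∑ j, A k i j = ∑ i, ∑ j, ∑ k, A k i j := by
        intro A
        rw [Finset.sum_comm]
        exact Finset.sum_congr rfl fun i _ => Finset.sum_comm
      rw [Finset.sum_congr rfl fun k _ => e3 k, e4]
      refine Finset.sum_congr rfl fun i _ => ?_
      refine Finset.sum_congr rfl fun j _ => ?_
      rw [hF, Finset.mul_sum]
      refine Finset.sum_congr rfl fun k _ => ?_
      ring
    have hc : Continuous fun g : K => ∑ i, ∑ j, x i * x j * F g i j :=
      continuous_finsetSum _ fun i _ => continuous_finsetSum _ fun j _ =>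
        continuous_const.mul (hFc i j)
    refine hc.integral_pos_of_hasCompactSupport_nonneg_nonzero
      (HasCompactSupport.of_compactSpace _) (fun g => ?_) (x := (1 : K)) ?_
    · show (0 : ℝ) ≤ ∑ i, ∑ j, x i * x j * F g i j
      rw [e2]
      exact Finset.sum_nonneg fun k _ => sq_nonneg _
    · show ∑ i, ∑ j, x i * x j * F 1 i j ≠ 0
      rw [e2]
      have e3 : ∀ k, ∑ i, (((1 : K)⁻¹ : K) : GL (Fin m) ℝ).val k i * x i = x k := by
        intro k
        rw [inv_one]
        show ∑ i, (1 : Matrix (Fin m) (Fin m) ℝ) k i * x i = x k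
        simp [Matrix.one_apply]
      intro h0
      have h1 : ∀ k ∈ Finset.univ, (x k) ^ 2 = 0 := by
        rw [← Finset.sum_eq_zero_iff_of_nonneg fun k _ => sq_nonneg (x k)]
        rw [← h0]
        exact Finset.sum_congr rfl fun k _ => by rw [e3]
      apply hx
      ext k
      exact pow_eq_zero_iff (two_ne_zero) |>.1 (h1 k (Finset.mem_univ k))
  · intro h hh
    let h' : K := ⟨h, G.le_topologicalClosure hh⟩
    have hh' : (h' : GL (Fin m) ℝ) = h := rfl
    ext i j
    have e1 : ((h : Matrix (Fin m) (Fin m) ℝ).transpose * P * (h : Matrix (Fin m) (Fin m) ℝ)) i j =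
        ∑ a, ∑ b, (h.val a i * h.val b j) * P a b := by
      rw [Matrix.mul_apply]
      simp only [Matrix.mul_apply, Finset.sum_mul, Matrix.transpose_apply]
      rw [Finset.sum_comm]
      refine Finset.sum_congr rfl fun a _ => Finset.sum_congr rfl fun b _ => ?_
      ring
    rw [e1, hlin fun a b => h.val a i * h.val b j, hP,
      ← integral_mul_left_eq_self (fun g => F g i j) h'⁻¹]
    congr 1
    ext g
    have e2 : (((h'⁻¹ * g)⁻¹ : K) : GL (Fin m) ℝ).val =
        ((g⁻¹ : K) : GL (Fin m) ℝ).val * h.val := by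
      rw [_root_.mul_inv_rev, inv_inv]
      rfl
    have e3 : F (h'⁻¹ * g) = h.val.transpose * F g * h.val := by
      show (((h'⁻¹ * g)⁻¹ : K) : GL (Fin m) ℝ).val.transpose *
        (((h'⁻¹ * g)⁻¹ : K) : GL (Fin m) ℝ).val = _
      rw [e2, Matrix.transpose_mul]
      simp only [F, Matrix.mul_assoc]
    rw [e3, Matrix.mul_apply]
    simp only [Matrix.mul_apply, Finset.sum_mul, Matrix.transpose_apply]
    rw [Finset.sum_comm]
    refine Finset.sum_congr rfl fun a _ => Finset.sum_congr rfl fun b _ => ?_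
    ring

end Pool.Agent.V5helper79.DRB
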