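import Pool.Agent.W544.K3.Defs

/-! # Project DRB, job LOGQ: the real logarithm of the semisimple hyperbolic part -/

set_option autoImplicit false

open Module Polynomial Finset

namespace Pool.Agent.V5helper79.DRB

open Pool.Agent.W544.K3

/-- Hermite interpolation -/
theorem crt (N : ℕ) (c : ℂ → ℂ) (S : Finset ℂ) :
    ∃ p : ℂ[X], ∀ z ∈ S, (X - C z) ^ N ∣ p - C (c z) := by
  classical
  induction S using Finset.induction_on with
  | empty => exact ⟨0, by simp⟩
  | @insert z S hz ih =>
    obtain ⟨p, hp⟩ := ih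
    have hc : IsCoprime (∏ w ∈ S, (X - C w) ^ N) ((X - C z) ^ N) := by
      apply IsCoprime.prod_left
      intro w hw
      apply IsCoprime.pow
      apply Polynomial.isCoprime_X_sub_C_of_isUnit_sub
      refine (sub_ne_zero.2 ?_).isUnit
      rintro rfl
      exact hz hw
    obtain ⟨a, b, hab⟩ := hc
    refine ⟨p + a * (∏ w ∈ S, (X - C w) ^ N) * (C (c z) - p), fun w hw => ?_⟩
    rcases Finset.mem_insert.1 hw with rfl | hw
    · refine ⟨-(b * (C (c w) - p)), ?_⟩
      linear_combination (C (c w) - p) * hab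
    · obtain ⟨r, hr⟩ := hp w hw
      obtain ⟨s, hs⟩ := Finset.dvd_prod_of_mem (fun w => (X - C w : ℂ[X]) ^ N) hw
      refine ⟨r + a * s * (C (c z) - p), ?_⟩
      rw [hs]
      linear_combination hr

/-- the real part of a polynomial -/
noncomputable def rp (p : ℂ[X]) : ℝ[X] := ∑ i ∈ p.support, monomial i (p.coeff i).re

theorem rp_coeff (p : ℂ[X]) (i : ℕ) : (rp p).coeff i = (p.coeff i).re := by
  classical
  unfold rp
  rw [finsetSum_coeff]
  simp only [coeff_monomial]
  rw [Finset.sum_ite_eq']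
  split_ifs with h
  · rfl
  · rw [Polynomial.notMem_support_iff.1 h, Complex.zero_re]

theorem rp_map (p : ℂ[X]) :
    C 2 * (rp p).map Complex.ofRealHom = p + p.map (starRingEnd ℂ) := by
  ext i
  rw [coeff_C_mul, coeff_map, rp_coeff, coeff_add, coeff_map]
  have := Complex.add_conj (p.coeff i)
  rw [this]
  simp

/-- real Hermite interpolation -/
theorem crtR (N : ℕ) (c : ℂ → ℝ) (hc : ∀ z, c (starRingEnd ℂ z) = c z) (S : Finset ℂ) :
    ∃ q : ℝ[X], ∀ z ∈ S, (X - C z) ^ N ∣ q.map Complex.ofRealHom - C ((c z : ℝ) : ℂ) := by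
  classical
  obtain ⟨p, hp⟩ := crt N (fun z => ((c z : ℝ) : ℂ)) (S ∪ S.image (starRingEnd ℂ))
  refine ⟨rp p, fun z hz => ?_⟩
  have h1 := hp z (Finset.mem_union_left _ hz)
  have h2 := hp (starRingEnd ℂ z) (Finset.mem_union_right _ (Finset.mem_image_of_mem _ hz))
  have h3 := Polynomial.map_dvd (starRingEnd ℂ) h2
  rw [Polynomial.map_pow, Polynomial.map_sub, Polynomial.map_sub, Polynomial.map_X,
    Polynomial.map_C, Polynomial.map_C, Complex.conj_conj, hc, Complex.conj_ofReal] at h3
  have h4 := dvd_add h1 h3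
  have h5 : p - C ((c z : ℝ) : ℂ) + (p.map (starRingEnd ℂ) - C ((c z : ℝ) : ℂ)) =
      C 2 * ((rp p).map Complex.ofRealHom - C ((c z : ℝ) : ℂ)) := by
    rw [mul_sub, rp_map, ← C_mul, two_mul, C_add]
    ring
  rw [h5] at h4
  have hu : IsUnit (C (2 : ℂ) : ℂ[X]) := (Polynomial.isUnit_C).2 (by norm_num)
  exact (hu.dvd_mul_left).1 h4

/-- complexification as a ring homomorphism -/
noncomputable def cxH (n : ℕ) : End ℝ (Fin n → ℝ) →+* End ℂ (Fin n → ℂ) :=
  ((Matrix.toLinAlgEquiv' (R := ℂ) (n := Fin n)).toRingEquiv.toRingHom.comp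
    (Complex.ofRealHom.mapMatrix)).comp
    (LinearMap.toMatrixAlgEquiv' (R := ℝ) (n := Fin n)).toRingEquiv.toRingHom

theorem cxH_apply {n : ℕ} (x : End ℝ (Fin n → ℝ)) : cxH n x = cx x := rfl

theorem cxH_inj (n : ℕ) : Function.Injective (cxH n) := by
  intro x y h
  have h1 : (LinearMap.toMatrix' x).map (fun a : ℝ => (a : ℂ)) =
      (LinearMap.toMatrix' y).map (fun a : ℝ => (a : ℂ)) :=
    (Matrix.toLin' (R := ℂ) (m := Fin n) (n := Fin n)).injective h
  have h2 : LinearMap.toMatrix' x = LinearMap.toMatrix' y := by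
    ext i j
    have := congrFun (congrFun h1 i) j
    simpa using this
  exact LinearMap.toMatrix'.injective h2

theorem cxH_alg {n : ℕ} :
    (cxH n).comp (algebraMap ℝ (End ℝ (Fin n → ℝ))) =
      (algebraMap ℂ (End ℂ (Fin n → ℂ))).comp Complex.ofRealHom := by
  ext r : 1
  show cxH n (algebraMap ℝ (End ℝ (Fin n → ℝ)) r) = algebraMap ℂ (End ℂ (Fin n → ℂ)) (r : ℂ)
  have h1 : algebraMap ℝ (End ℝ (Fin n → ℝ)) r = r • 1 := Algebra.algebraMap_eq_smul_one r
  have h2 : algebraMap ℂ (End ℂ (Fin n → ℂ)) (r : ℂ) = (r : ℂ) • 1 :=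
    Algebra.algebraMap_eq_smul_one _
  rw [h1, h2, cxH_apply]
  unfold cx
  apply (LinearMap.toMatrix' (R := ℂ) (m := Fin n) (n := Fin n)).injective
  rw [LinearMap.toMatrix'_toLin']
  ext i j
  rw [Matrix.map_apply]
  simp only [LinearMap.toMatrix'_apply, LinearMap.smul_apply, Module.End.one_apply, Pi.smul_apply,
    smul_eq_mul, Pi.single_apply]
  split_ifs <;> simp

theorem cxH_aeval {n : ℕ} (x : End ℝ (Fin n → ℝ)) (q : ℝ[X]) :
    cx (aeval x q) = aeval (cx x) (q.map Complex.ofRealHom) := by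
  rw [← cxH_apply, aeval_def, Polynomial.hom_eval₂, cxH_alg, aeval_def, Polynomial.eval₂_map]
  rfl

theorem aeval_mem {U : Type} [AddCommGroup U] [Module ℝ U] (g : End ℝ U) (M : Submodule ℝ U)
    (h : ∀ v ∈ M, g v ∈ M) (q : ℝ[X]) : ∀ v ∈ M, (aeval g q) v ∈ M := by
  induction q using Polynomial.induction_on' with
  | add p q hp hq =>
    intro v hv
    rw [map_add, LinearMap.add_apply]
    exact M.add_mem (hp v hv) (hq v hv)
  | monomial k a =>
    intro v hv
    rw [aeval_monomial]
    have hk : ∀ k : ℕ, (g ^ k) v ∈ M := by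
      intro k
      induction k with
      | zero => simpa using hv
      | succ k ih =>
        rw [pow_succ']
        exact h _ ih
    rw [Module.End.mul_apply, Module.algebraMap_end_apply]
    exact M.smul_mem _ (hk k)

/-- an operator killed by a product of distinct linear factors is diagonalisable -/
theorem diag_of_prod {U : Type} [AddCommGroup U] [Module ℝ U] (x : End ℝ U) (S : Finset ℝ) :
    LinearMap.ker (aeval x (∏ l ∈ S, (X - C l : ℝ[X]))) ≤ ⨆ μ : ℝ, End.eigenspace x μ := by
  classical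
  induction S using Finset.induction_on with
  | empty =>
    rw [Finset.prod_empty, map_one]
    intro v hv
    have : v = 0 := by simpa using hv
    rw [this]
    exact Submodule.zero_mem _
  | @insert l S hl ih =>
    rw [Finset.prod_insert hl]
    have hc : IsCoprime (X - C l : ℝ[X]) (∏ w ∈ S, (X - C w)) := by
      apply IsCoprime.prod_right
      intro w hw
      apply Polynomial.isCoprime_X_sub_C_of_isUnit_sub
      refine (sub_ne_zero.2 ?_).isUnit
      rintro rfl
      exact hl hw
    rw [← Polynomial.sup_ker_aeval_eq_ker_aeval_mul_of_coprime x hc]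
    apply sup_le _ ih
    refine le_trans ?_ (le_iSup _ l)
    intro v hv
    rw [LinearMap.mem_ker, map_sub, aeval_X, aeval_C, LinearMap.sub_apply,
      Module.algebraMap_end_apply, sub_eq_zero] at hv
    exact End.mem_eigenspace_iff.2 hv

theorem t_LOGQ : S_logQ := by
  classical
  intro n g
  set G : End ℝ (Fin n → ℝ) := (g : End ℝ (Fin n → ℝ)) with hG
  let S : Finset ℂ := (Module.End.finite_hasEigenvalue (cx G)).toFinset
  have hS : ∀ z, (cx G).HasEigenvalue z → z ∈ S := fun z hz => by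
    rw [Set.Finite.mem_toFinset]
    exact hz
  obtain ⟨q, hq⟩ := crtR n (fun z => Real.log ‖z‖) (fun z => by rw [Complex.norm_conj]) S
  have hkey : ∀ z : ℂ, ∀ v ∈ End.maxGenEigenspace (cx G) z,
      cx (aeval G q) v = ((Real.log ‖z‖ : ℝ) : ℂ) • v := by
    intro z v hv
    by_cases hv0 : v = 0
    · rw [hv0, map_zero, smul_zero]
    have hz : (cx G).HasEigenvalue z := by
      have h1 : (cx G).HasUnifEigenvalue z ⊤ := by
        intro h
        have h2 : v ∈ (⊥ : Submodule ℂ (Fin n → ℂ)) := h ▸ hv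
        exact hv0 ((Submodule.mem_bot ℂ).1 h2)
      exact h1.lt zero_lt_one
    obtain ⟨s, hs⟩ := hq z (hS z hz)
    have h1 : (((cx G) - z • (1 : End ℂ (Fin n → ℂ))) ^ n) v = 0 := by
      have h2 := End.maxGenEigenspace_eq_genEigenspace_finrank (cx G) z
      rw [h2, Module.finrank_fin_fun] at hv
      exact Module.End.mem_genEigenspace_nat.1 hv
    have h3 : aeval (cx G) ((X - C z) ^ n) = ((cx G) - z • (1 : End ℂ (Fin n → ℂ))) ^ n := by
      rw [map_pow, map_sub, aeval_X, aeval_C, Algebra.algebraMap_eq_smul_one]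
    have h4 : aeval (cx G) (q.map Complex.ofRealHom) =
        aeval (cx G) s * ((cx G) - z • (1 : End ℂ (Fin n → ℂ))) ^ n +
          ((Real.log ‖z‖ : ℝ) : ℂ) • 1 := by
      rw [← h3, ← map_mul, ← Algebra.algebraMap_eq_smul_one, ← aeval_C (cx G), ← map_add]
      congr 1
      rw [mul_comm s, ← hs]
      ring
    rw [cxH_aeval, h4, LinearMap.add_apply, Module.End.mul_apply, h1, map_zero, zero_add,
      LinearMap.smul_apply, Module.End.one_apply]
  refine ⟨aeval G q, ?_, fun M hM => aeval_mem G M hM q, hkey⟩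
  have hr : aeval (aeval G q) (∏ l ∈ S.image (fun z => Real.log ‖z‖), (X - C l : ℝ[X])) = 0 := by
    apply cxH_inj n
    rw [map_zero, cxH_apply, cxH_aeval]
    have hker : (⊤ : Submodule ℂ (Fin n → ℂ)) ≤ LinearMap.ker (aeval (cx (aeval G q))
        ((∏ l ∈ S.image (fun z => Real.log ‖z‖), (X - C l : ℝ[X])).map Complex.ofRealHom)) := by
      rw [← End.iSup_maxGenEigenspace_eq_top (cx G)]
      apply iSup_le
      intro z v hv
      rw [LinearMap.mem_ker]
      by_cases hv0 : v = 0
      · rw [hv0, map_zero]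
      have hz : (cx G).HasEigenvalue z := by
        have h1 : (cx G).HasUnifEigenvalue z ⊤ := by
          intro h
          have h2 : v ∈ (⊥ : Submodule ℂ (Fin n → ℂ)) := h ▸ hv
          exact hv0 ((Submodule.mem_bot ℂ).1 h2)
        exact h1.lt zero_lt_one
      have h1 : (cx (aeval G q)).HasEigenvector ((Real.log ‖z‖ : ℝ) : ℂ) v :=
        ⟨End.mem_eigenspace_iff.2 (hkey z v hv), hv0⟩
      rw [Module.End.aeval_apply_of_hasEigenvector h1]
      have h2 : eval ((Real.log ‖z‖ : ℝ) : ℂ)
          ((∏ l ∈ S.image (fun z => Real.log ‖z‖), (X - C l : ℝ[X])).map Complex.ofRealHom) = 0 := by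
        rw [Polynomial.map_prod, Polynomial.eval_prod]
        apply Finset.prod_eq_zero (Finset.mem_image_of_mem (fun z : ℂ => Real.log ‖z‖) (hS z hz))
        simp
      rw [h2, zero_smul]
    exact LinearMap.ext fun v => LinearMap.mem_ker.1 (hker (Submodule.mem_top (x := v)))
  have h5 := diag_of_prod (aeval G q) (S.image (fun z => Real.log ‖z‖))
  rw [hr, LinearMap.ker_zero, top_le_iff] at h5
  exact h5

end Pool.Agent.V5helper79.DRB
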